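import Pool.Agent.Work.MP_92a29d_cert.g4322P_J0.O
import Pool.Agent.Work.MP_92a29d_cert.g4322P_J0.J0
import Pool.Agent.Work.MP_92a29d_cert.g4322P_J0.J1
import Pool.Agent.Work.MP_92a29d_cert.g4322P_J0.J2
import Pool.Agent.Work.MP_92a29d_cert.g4322P_J0.J3
import Pool.Agent.Work.MP_92a29d_cert.g4322P_J0.J4
import Pool.Agent.Work.MP_92a29d_cert.g4322P_J0.J5
import Pool.Agent.Work.MP_92a29d_cert.g4322P_J0.J6
import Pool.Agent.Work.MP_92a29d_cert.g4322P_J0.J7
import Pool.Agent.Work.MP_92a29d_cert.g4322P_J0.J8
import Pool.Agent.Work.MP_92a29d_cert.g4322P_J0.J9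
import Pool.Agent.Work.MP_92a29d_cert.g4322P_J0.J10
import Pool.Agent.Work.MP_92a29d_cert.g4322P_J0.J11
import Pool.Agent.Work.MP_92a29d_cert.g4322P_J0.J12
import Pool.Agent.Work.MP_92a29d_cert.g4322P_J0.J13
import Pool.Agent.Work.MP_92a29d_cert.g4322P_J0.J14
import Pool.Agent.Work.MP_92a29d_cert.g4322P_J0.J15
import Pool.Agent.Work.MP_92a29d_cert.g4322P_J0.J16
import Pool.Agent.Work.MP_92a29d_cert.g4322P_J0.J17
import Pool.Agent.Work.MP_92a29d_cert.g4322P_J0.J18
import Pool.Agent.Work.MP_92a29d_cert.g4322P_J0.J19
import Pool.Agent.Work.MP_92a29d_cert.g4322P_J0.J20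
import Pool.Agent.Work.MP_92a29d_cert.g4322P_J0.J21
import Pool.Agent.Work.MP_92a29d_cert.g4322P_J0.J22
import Pool.Agent.Work.MP_92a29d_cert.g4322P_J0.J23
import Pool.Agent.Work.MP_92a29d_cert.g4322P_J0.J24
import Pool.Agent.Work.MP_92a29d_cert.g4322P_J0.J25
import Pool.Agent.Work.MP_92a29d_cert.g4322P_J0.J26
import Pool.Agent.Work.MP_92a29d_cert.g4322P_J0.J27
import Pool.Agent.Work.MP_92a29d_cert.g4322P_J0.J28
import Pool.Agent.Work.MP_92a29d_cert.g4322P_J0.J29
import Pool.Agent.Work.MP_92a29d_cert.g4322P_J0.J30
import Pool.Agent.Work.MP_92a29d_cert.g4322P_J0.J31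
import Pool.Agent.Work.MP_92a29d_cert.g4322P_J0.J32
import Pool.Agent.Work.MP_92a29d_cert.g4322P_J0.J33
import Pool.Agent.Work.MP_92a29d_cert.g4322P_J0.J34
import Pool.Agent.Work.MP_92a29d_cert.g4322P_J0.J35
import Pool.Agent.Work.MP_92a29d_cert.g4322P_J0.J36
import Pool.Agent.Work.MP_92a29d_cert.g4322P_J0.J37
import Pool.Agent.Work.MP_92a29d_cert.g4322P_J0.J38
import Pool.Agent.Work.MP_92a29d_cert.g4322P_J0.J39
import Pool.Agent.Work.MP_92a29d_cert.g4322P_J0.J40
import Pool.Agent.Work.MP_92a29d_cert.g4322P_J0.J41
import Pool.Agent.Work.MP_92a29d_cert.g4322P_J0.J42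
import Pool.Agent.Work.MP_92a29d_cert.g4322P_J0.J43
import Pool.Agent.Work.MP_92a29d_cert.g4322P_J0.J44
import Pool.Agent.Work.MP_92a29d_cert.g4322P_J0.J45
import Pool.Agent.Work.MP_92a29d_cert.g4322P_J0.J46
import Pool.Agent.Work.MP_92a29d_cert.g4322P_J0.J47
import Pool.Agent.Work.MP_92a29d_cert.g4322P_J0.J48
import Pool.Agent.Work.MP_92a29d_cert.g4322P_J0.J49
import Pool.Agent.Work.MP_92a29d_cert.g4322P_J0.J50
import Pool.Agent.Work.MP_92a29d_cert.g4322P_J0.J51
import Pool.Agent.Work.MP_92a29d_cert.g4322P_J0.J52
import Pool.Agent.Work.MP_92a29d_cert.g4322P_J0.J53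
import Pool.Agent.Work.MP_92a29d_cert.g4322P_J0.J54
import Pool.Agent.Work.MP_92a29d_cert.g4322P_J0.J55
import Pool.Agent.Work.MP_92a29d_cert.g4322P_J0.J56
import Pool.Agent.Work.MP_92a29d_cert.g4322P_J0.J57
import Pool.Agent.Work.MP_92a29d_cert.g4322P_J0.J58
import Pool.Agent.Work.MP_92a29d_cert.g4322P_J0.J59
import Pool.Agent.Work.MP_92a29d_cert.g4322P_J0.J60
import Pool.Agent.Work.MP_92a29d_cert.g4322P_J0.J61
import Pool.Agent.Work.MP_92a29d_cert.g4322P_J0.J62
import Pool.Agent.Work.MP_92a29d_cert.g4322P_J0.J63
import Pool.Agent.Work.MP_92a29d_cert.g4322P_J0.J64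
import Pool.Agent.Work.MP_92a29d_cert.g4322P_J0.J65
import Pool.Agent.Work.MP_92a29d_cert.g4322P_J0.J66
import Pool.Agent.Work.MP_92a29d_cert.g4322P_J0.J67
import Pool.Agent.Work.MP_92a29d_cert.g4322P_J0.J68
import Pool.Agent.Work.MP_92a29d_cert.g4322P_J0.J69
import Pool.Agent.Work.MP_92a29d_cert.g4322P_J0.J70
import Pool.Agent.Work.MP_92a29d_cert.g4322P_J0.J71
import Pool.Agent.Work.MP_92a29d_cert.g4322P_J0.J72
import Pool.Agent.Work.MP_92a29d_cert.g4322P_J0.J73
import Pool.Agent.Work.MP_92a29d_cert.g4322P_J0.J74
import Pool.Agent.Work.MP_92a29d_cert.g4322P_J0.J75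
import Pool.Agent.Work.MP_92a29d_cert.g4322P_J0.J76
import Pool.Agent.Work.MP_92a29d_cert.g4322P_J0.J77
import Pool.Agent.Work.MP_92a29d_cert.g4322P_J0.J78
import Pool.Agent.Work.MP_92a29d_cert.g4322P_J0.J79
import Pool.Agent.Work.MP_92a29d_cert.g4322P_J0.J80
import Pool.Agent.Work.MP_92a29d_cert.g4322P_J0.J81
import Pool.Agent.Work.MP_92a29d_cert.g4322P_J0.J82
import Pool.Agent.Work.MP_92a29d_cert.g4322P_J0.J83
import Pool.Agent.Work.MP_92a29d_cert.g4322P_J0.J84
import Pool.Agent.Work.MP_92a29d_cert.g4322P_J0.J85
import Pool.Agent.Work.MP_92a29d_cert.g4322P_J0.J86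
import Pool.Agent.Work.MP_92a29d_cert.g4322P_J0.J87
import Pool.Agent.Work.MP_92a29d_cert.g4322P_J0.J88
import Pool.Agent.Work.MP_92a29d_cert.g4322P_J0.J89
import Pool.Agent.Work.MP_92a29d_cert.g4322P_J0.J90
import Pool.Agent.Work.MP_92a29d_cert.g4322P_J0.J91
import Pool.Agent.Work.MP_92a29d_cert.g4322P_J0.J92
import Pool.Agent.Work.MP_92a29d_cert.g4322P_J0.J93
import Pool.Agent.Work.MP_92a29d_cert.g4322P_J0.J94
import Pool.Agent.Work.MP_92a29d_cert.g4322P_J0.J95
import Pool.Agent.Work.MP_92a29d_cert.g4322P_J0.J96
import Pool.Agent.Work.MP_92a29d_cert.g4322P_J0.J97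
import Pool.Agent.Work.MP_92a29d_cert.g4322P_J0.J98
import Pool.Agent.Work.MP_92a29d_cert.g4322P_J0.J99
import Pool.Agent.Work.MP_92a29d_cert.g4322P_J0.J100
import Pool.Agent.Work.MP_92a29d_cert.g4322P_J0.J101
import Pool.Agent.Work.MP_92a29d_cert.g4322P_J0.J102
import Pool.Agent.Work.MP_92a29d_cert.g4322P_J0.J103
import Pool.Agent.Work.MP_92a29d_cert.g4322P_J0.J104
import Pool.Agent.Work.MP_92a29d_cert.g4322P_J0.J105
import Pool.Agent.Work.MP_92a29d_cert.g4322P_J0.J106
import Pool.Agent.Work.MP_92a29d_cert.g4322P_J0.J107
import Pool.Agent.Work.MP_92a29d_cert.g4322P_J0.J108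
import Pool.Agent.Work.MP_92a29d_cert.g4322P_J0.J109
import Pool.Agent.Work.MP_92a29d_cert.g4322P_J0.J110

/-! The instance has no model (generated). -/

set_option autoImplicit false
set_option maxRecDepth 100000

namespace Pool.Agent.Work.MP_92a29d_cert.g4322P_J0

open Pool.Agent.Work.MP_92a29d_co_h93 Pool.Agent.Work.MP_92a29d_co_h45

theorem hK : K0 = 2 ^ 2202 := by decide +kernel

theorem hA : A0 = 2 ^ (2202 - 12) - 2 ^ 12 := by decide +kernel

theorem hL : L 196842 = 0 := by decide +kernel

theorem unsat {M : Model} : ¬ IsModelX Pool.Agent.Work.MP_92a29d_co.Place.g4322P_J0 M := by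
  intro hM
  obtain ⟨τ, hz, hOM⟩ := Pool.Agent.Work.MP_92a29d_co_h45.OM_g4322P_J0.om_sound hM
  have h0 := origs_sound hz hA hOM okO
  have h1 := job_sound hz (by decide) hK hA ok0 (by decide) h0 sz0
  have h2 := job_sound hz (by decide) hK hA ok1 (by decide) h1 sz1
  have h3 := job_sound hz (by decide) hK hA ok2 (by decide) h2 sz2
  have h4 := job_sound hz (by decide) hK hA ok3 (by decide) h3 sz3
  have h5 := job_sound hz (by decide) hK hA ok4 (by decide) h4 sz4
  have h6 := job_sound hz (by decide) hK hA ok5 (by decide) h5 sz5
  have h7 := job_sound hz (by decide) hK hA ok6 (by decide) h6 sz6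
  have h8 := job_sound hz (by decide) hK hA ok7 (by decide) h7 sz7
  have h9 := job_sound hz (by decide) hK hA ok8 (by decide) h8 sz8
  have h10 := job_sound hz (by decide) hK hA ok9 (by decide) h9 sz9
  have h11 := job_sound hz (by decide) hK hA ok10 (by decide) h10 sz10
  have h12 := job_sound hz (by decide) hK hA ok11 (by decide) h11 sz11
  have h13 := job_sound hz (by decide) hK hA ok12 (by decide) h12 sz12
  have h14 := job_sound hz (by decide) hK hA ok13 (by decide) h13 sz13
  have h15 := job_sound hz (by decide) hK hA ok14 (by decide) h14 sz14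
  have h16 := job_sound hz (by decide) hK hA ok15 (by decide) h15 sz15
  have h17 := job_sound hz (by decide) hK hA ok16 (by decide) h16 sz16
  have h18 := job_sound hz (by decide) hK hA ok17 (by decide) h17 sz17
  have h19 := job_sound hz (by decide) hK hA ok18 (by decide) h18 sz18
  have h20 := job_sound hz (by decide) hK hA ok19 (by decide) h19 sz19
  have h21 := job_sound hz (by decide) hK hA ok20 (by decide) h20 sz20
  have h22 := job_sound hz (by decide) hK hA ok21 (by decide) h21 sz21
  have h23 := job_sound hz (by decide) hK hA ok22 (by decide) h22 sz22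
  have h24 := job_sound hz (by decide) hK hA ok23 (by decide) h23 sz23
  have h25 := job_sound hz (by decide) hK hA ok24 (by decide) h24 sz24
  have h26 := job_sound hz (by decide) hK hA ok25 (by decide) h25 sz25
  have h27 := job_sound hz (by decide) hK hA ok26 (by decide) h26 sz26
  have h28 := job_sound hz (by decide) hK hA ok27 (by decide) h27 sz27
  have h29 := job_sound hz (by decide) hK hA ok28 (by decide) h28 sz28
  have h30 := job_sound hz (by decide) hK hA ok29 (by decide) h29 sz29
  have h31 := job_sound hz (by decide) hK hA ok30 (by decide) h30 sz30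
  have h32 := job_sound hz (by decide) hK hA ok31 (by decide) h31 sz31
  have h33 := job_sound hz (by decide) hK hA ok32 (by decide) h32 sz32
  have h34 := job_sound hz (by decide) hK hA ok33 (by decide) h33 sz33
  have h35 := job_sound hz (by decide) hK hA ok34 (by decide) h34 sz34
  have h36 := job_sound hz (by decide) hK hA ok35 (by decide) h35 sz35
  have h37 := job_sound hz (by decide) hK hA ok36 (by decide) h36 sz36
  have h38 := job_sound hz (by decide) hK hA ok37 (by decide) h37 sz37
  have h39 := job_sound hz (by decide) hK hA ok38 (by decide) h38 sz38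
  have h40 := job_sound hz (by decide) hK hA ok39 (by decide) h39 sz39
  have h41 := job_sound hz (by decide) hK hA ok40 (by decide) h40 sz40
  have h42 := job_sound hz (by decide) hK hA ok41 (by decide) h41 sz41
  have h43 := job_sound hz (by decide) hK hA ok42 (by decide) h42 sz42
  have h44 := job_sound hz (by decide) hK hA ok43 (by decide) h43 sz43
  have h45 := job_sound hz (by decide) hK hA ok44 (by decide) h44 sz44
  have h46 := job_sound hz (by decide) hK hA ok45 (by decide) h45 sz45
  have h47 := job_sound hz (by decide) hK hA ok46 (by decide) h46 sz46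
  have h48 := job_sound hz (by decide) hK hA ok47 (by decide) h47 sz47
  have h49 := job_sound hz (by decide) hK hA ok48 (by decide) h48 sz48
  have h50 := job_sound hz (by decide) hK hA ok49 (by decide) h49 sz49
  have h51 := job_sound hz (by decide) hK hA ok50 (by decide) h50 sz50
  have h52 := job_sound hz (by decide) hK hA ok51 (by decide) h51 sz51
  have h53 := job_sound hz (by decide) hK hA ok52 (by decide) h52 sz52
  have h54 := job_sound hz (by decide) hK hA ok53 (by decide) h53 sz53
  have h55 := job_sound hz (by decide) hK hA ok54 (by decide) h54 sz54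
  have h56 := job_sound hz (by decide) hK hA ok55 (by decide) h55 sz55
  have h57 := job_sound hz (by decide) hK hA ok56 (by decide) h56 sz56
  have h58 := job_sound hz (by decide) hK hA ok57 (by decide) h57 sz57
  have h59 := job_sound hz (by decide) hK hA ok58 (by decide) h58 sz58
  have h60 := job_sound hz (by decide) hK hA ok59 (by decide) h59 sz59
  have h61 := job_sound hz (by decide) hK hA ok60 (by decide) h60 sz60
  have h62 := job_sound hz (by decide) hK hA ok61 (by decide) h61 sz61
  have h63 := job_sound hz (by decide) hK hA ok62 (by decide) h62 sz62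
  have h64 := job_sound hz (by decide) hK hA ok63 (by decide) h63 sz63
  have h65 := job_sound hz (by decide) hK hA ok64 (by decide) h64 sz64
  have h66 := job_sound hz (by decide) hK hA ok65 (by decide) h65 sz65
  have h67 := job_sound hz (by decide) hK hA ok66 (by decide) h66 sz66
  have h68 := job_sound hz (by decide) hK hA ok67 (by decide) h67 sz67
  have h69 := job_sound hz (by decide) hK hA ok68 (by decide) h68 sz68
  have h70 := job_sound hz (by decide) hK hA ok69 (by decide) h69 sz69
  have h71 := job_sound hz (by decide) hK hA ok70 (by decide) h70 sz70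
  have h72 := job_sound hz (by decide) hK hA ok71 (by decide) h71 sz71
  have h73 := job_sound hz (by decide) hK hA ok72 (by decide) h72 sz72
  have h74 := job_sound hz (by decide) hK hA ok73 (by decide) h73 sz73
  have h75 := job_sound hz (by decide) hK hA ok74 (by decide) h74 sz74
  have h76 := job_sound hz (by decide) hK hA ok75 (by decide) h75 sz75
  have h77 := job_sound hz (by decide) hK hA ok76 (by decide) h76 sz76
  have h78 := job_sound hz (by decide) hK hA ok77 (by decide) h77 sz77
  have h79 := job_sound hz (by decide) hK hA ok78 (by decide) h78 sz78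
  have h80 := job_sound hz (by decide) hK hA ok79 (by decide) h79 sz79
  have h81 := job_sound hz (by decide) hK hA ok80 (by decide) h80 sz80
  have h82 := job_sound hz (by decide) hK hA ok81 (by decide) h81 sz81
  have h83 := job_sound hz (by decide) hK hA ok82 (by decide) h82 sz82
  have h84 := job_sound hz (by decide) hK hA ok83 (by decide) h83 sz83
  have h85 := job_sound hz (by decide) hK hA ok84 (by decide) h84 sz84
  have h86 := job_sound hz (by decide) hK hA ok85 (by decide) h85 sz85
  have h87 := job_sound hz (by decide) hK hA ok86 (by decide) h86 sz86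
  have h88 := job_sound hz (by decide) hK hA ok87 (by decide) h87 sz87
  have h89 := job_sound hz (by decide) hK hA ok88 (by decide) h88 sz88
  have h90 := job_sound hz (by decide) hK hA ok89 (by decide) h89 sz89
  have h91 := job_sound hz (by decide) hK hA ok90 (by decide) h90 sz90
  have h92 := job_sound hz (by decide) hK hA ok91 (by decide) h91 sz91
  have h93 := job_sound hz (by decide) hK hA ok92 (by decide) h92 sz92
  have h94 := job_sound hz (by decide) hK hA ok93 (by decide) h93 sz93
  have h95 := job_sound hz (by decide) hK hA ok94 (by decide) h94 sz94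
  have h96 := job_sound hz (by decide) hK hA ok95 (by decide) h95 sz95
  have h97 := job_sound hz (by decide) hK hA ok96 (by decide) h96 sz96
  have h98 := job_sound hz (by decide) hK hA ok97 (by decide) h97 sz97
  have h99 := job_sound hz (by decide) hK hA ok98 (by decide) h98 sz98
  have h100 := job_sound hz (by decide) hK hA ok99 (by decide) h99 sz99
  have h101 := job_sound hz (by decide) hK hA ok100 (by decide) h100 sz100
  have h102 := job_sound hz (by decide) hK hA ok101 (by decide) h101 sz101
  have h103 := job_sound hz (by decide) hK hA ok102 (by decide) h102 sz102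
  have h104 := job_sound hz (by decide) hK hA ok103 (by decide) h103 sz103
  have h105 := job_sound hz (by decide) hK hA ok104 (by decide) h104 sz104
  have h106 := job_sound hz (by decide) hK hA ok105 (by decide) h105 sz105
  have h107 := job_sound hz (by decide) hK hA ok106 (by decide) h106 sz106
  have h108 := job_sound hz (by decide) hK hA ok107 (by decide) h107 sz107
  have h109 := job_sound hz (by decide) hK hA ok108 (by decide) h108 sz108
  have h110 := job_sound hz (by decide) hK hA ok109 (by decide) h109 sz109
  have h111 := job_sound hz (by decide) hK hA ok110 (by decide) h110 sz110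
  have h112 := job_sound hz (by decide) hK hA ok111 (by decide) h111 sz111
  have h113 := job_sound hz (by decide) hK hA ok112 (by decide) h112 sz112
  have h114 := job_sound hz (by decide) hK hA ok113 (by decide) h113 sz113
  have h115 := job_sound hz (by decide) hK hA ok114 (by decide) h114 sz114
  have h116 := job_sound hz (by decide) hK hA ok115 (by decide) h115 sz115
  have h117 := job_sound hz (by decide) hK hA ok116 (by decide) h116 sz116
  have h118 := job_sound hz (by decide) hK hA ok117 (by decide) h117 sz117
  have h119 := job_sound hz (by decide) hK hA ok118 (by decide) h118 sz118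
  have h120 := job_sound hz (by decide) hK hA ok119 (by decide) h119 sz119
  have h121 := job_sound hz (by decide) hK hA ok120 (by decide) h120 sz120
  have h122 := job_sound hz (by decide) hK hA ok121 (by decide) h121 sz121
  have h123 := job_sound hz (by decide) hK hA ok122 (by decide) h122 sz122
  have h124 := job_sound hz (by decide) hK hA ok123 (by decide) h123 sz123
  have h125 := job_sound hz (by decide) hK hA ok124 (by decide) h124 sz124
  have h126 := job_sound hz (by decide) hK hA ok125 (by decide) h125 sz125
  have h127 := job_sound hz (by decide) hK hA ok126 (by decide) h126 sz126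
  have h128 := job_sound hz (by decide) hK hA ok127 (by decide) h127 sz127
  have h129 := job_sound hz (by decide) hK hA ok128 (by decide) h128 sz128
  have h130 := job_sound hz (by decide) hK hA ok129 (by decide) h129 sz129
  have h131 := job_sound hz (by decide) hK hA ok130 (by decide) h130 sz130
  have h132 := job_sound hz (by decide) hK hA ok131 (by decide) h131 sz131
  have h133 := job_sound hz (by decide) hK hA ok132 (by decide) h132 sz132
  have h134 := job_sound hz (by decide) hK hA ok133 (by decide) h133 sz133
  have h135 := job_sound hz (by decide) hK hA ok134 (by decide) h134 sz134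
  have h136 := job_sound hz (by decide) hK hA ok135 (by decide) h135 sz135
  have h137 := job_sound hz (by decide) hK hA ok136 (by decide) h136 sz136
  have h138 := job_sound hz (by decide) hK hA ok137 (by decide) h137 sz137
  have h139 := job_sound hz (by decide) hK hA ok138 (by decide) h138 sz138
  have h140 := job_sound hz (by decide) hK hA ok139 (by decide) h139 sz139
  have h141 := job_sound hz (by decide) hK hA ok140 (by decide) h140 sz140
  have h142 := job_sound hz (by decide) hK hA ok141 (by decide) h141 sz141
  have h143 := job_sound hz (by decide) hK hA ok142 (by decide) h142 sz142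
  have h144 := job_sound hz (by decide) hK hA ok143 (by decide) h143 sz143
  have h145 := job_sound hz (by decide) hK hA ok144 (by decide) h144 sz144
  have h146 := job_sound hz (by decide) hK hA ok145 (by decide) h145 sz145
  have h147 := job_sound hz (by decide) hK hA ok146 (by decide) h146 sz146
  have h148 := job_sound hz (by decide) hK hA ok147 (by decide) h147 sz147
  have h149 := job_sound hz (by decide) hK hA ok148 (by decide) h148 sz148
  have h150 := job_sound hz (by decide) hK hA ok149 (by decide) h149 sz149
  have h151 := job_sound hz (by decide) hK hA ok150 (by decide) h150 sz150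
  have h152 := job_sound hz (by decide) hK hA ok151 (by decide) h151 sz151
  have h153 := job_sound hz (by decide) hK hA ok152 (by decide) h152 sz152
  have h154 := job_sound hz (by decide) hK hA ok153 (by decide) h153 sz153
  have h155 := job_sound hz (by decide) hK hA ok154 (by decide) h154 sz154
  have h156 := job_sound hz (by decide) hK hA ok155 (by decide) h155 sz155
  have h157 := job_sound hz (by decide) hK hA ok156 (by decide) h156 sz156
  have h158 := job_sound hz (by decide) hK hA ok157 (by decide) h157 sz157
  have h159 := job_sound hz (by decide) hK hA ok158 (by decide) h158 sz158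
  have h160 := job_sound hz (by decide) hK hA ok159 (by decide) h159 sz159
  have h161 := job_sound hz (by decide) hK hA ok160 (by decide) h160 sz160
  have h162 := job_sound hz (by decide) hK hA ok161 (by decide) h161 sz161
  have h163 := job_sound hz (by decide) hK hA ok162 (by decide) h162 sz162
  have h164 := job_sound hz (by decide) hK hA ok163 (by decide) h163 sz163
  have h165 := job_sound hz (by decide) hK hA ok164 (by decide) h164 sz164
  have h166 := job_sound hz (by decide) hK hA ok165 (by decide) h165 sz165
  have h167 := job_sound hz (by decide) hK hA ok166 (by decide) h166 sz166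
  have h168 := job_sound hz (by decide) hK hA ok167 (by decide) h167 sz167
  have h169 := job_sound hz (by decide) hK hA ok168 (by decide) h168 sz168
  have h170 := job_sound hz (by decide) hK hA ok169 (by decide) h169 sz169
  have h171 := job_sound hz (by decide) hK hA ok170 (by decide) h170 sz170
  have h172 := job_sound hz (by decide) hK hA ok171 (by decide) h171 sz171
  have h173 := job_sound hz (by decide) hK hA ok172 (by decide) h172 sz172
  have h174 := job_sound hz (by decide) hK hA ok173 (by decide) h173 sz173
  have h175 := job_sound hz (by decide) hK hA ok174 (by decide) h174 sz174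
  have h176 := job_sound hz (by decide) hK hA ok175 (by decide) h175 sz175
  have h177 := job_sound hz (by decide) hK hA ok176 (by decide) h176 sz176
  have h178 := job_sound hz (by decide) hK hA ok177 (by decide) h177 sz177
  have h179 := job_sound hz (by decide) hK hA ok178 (by decide) h178 sz178
  have h180 := job_sound hz (by decide) hK hA ok179 (by decide) h179 sz179
  have h181 := job_sound hz (by decide) hK hA ok180 (by decide) h180 sz180
  have h182 := job_sound hz (by decide) hK hA ok181 (by decide) h181 sz181
  have h183 := job_sound hz (by decide) hK hA ok182 (by decide) h182 sz182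
  have h184 := job_sound hz (by decide) hK hA ok183 (by decide) h183 sz183
  have h185 := job_sound hz (by decide) hK hA ok184 (by decide) h184 sz184
  have h186 := job_sound hz (by decide) hK hA ok185 (by decide) h185 sz185
  have h187 := job_sound hz (by decide) hK hA ok186 (by decide) h186 sz186
  have h188 := job_sound hz (by decide) hK hA ok187 (by decide) h187 sz187
  have h189 := job_sound hz (by decide) hK hA ok188 (by decide) h188 sz188
  have h190 := job_sound hz (by decide) hK hA ok189 (by decide) h189 sz189
  have h191 := job_sound hz (by decide) hK hA ok190 (by decide) h190 sz190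
  have h192 := job_sound hz (by decide) hK hA ok191 (by decide) h191 sz191
  have h193 := job_sound hz (by decide) hK hA ok192 (by decide) h192 sz192
  have h194 := job_sound hz (by decide) hK hA ok193 (by decide) h193 sz193
  have h195 := job_sound hz (by decide) hK hA ok194 (by decide) h194 sz194
  have h196 := job_sound hz (by decide) hK hA ok195 (by decide) h195 sz195
  have h197 := job_sound hz (by decide) hK hA ok196 (by decide) h196 sz196
  have h198 := job_sound hz (by decide) hK hA ok197 (by decide) h197 sz197
  have h199 := job_sound hz (by decide) hK hA ok198 (by decide) h198 sz198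
  have h200 := job_sound hz (by decide) hK hA ok199 (by decide) h199 sz199
  have h201 := job_sound hz (by decide) hK hA ok200 (by decide) h200 sz200
  have h202 := job_sound hz (by decide) hK hA ok201 (by decide) h201 sz201
  have h203 := job_sound hz (by decide) hK hA ok202 (by decide) h202 sz202
  have h204 := job_sound hz (by decide) hK hA ok203 (by decide) h203 sz203
  have h205 := job_sound hz (by decide) hK hA ok204 (by decide) h204 sz204
  have h206 := job_sound hz (by decide) hK hA ok205 (by decide) h205 sz205
  have h207 := job_sound hz (by decide) hK hA ok206 (by decide) h206 sz206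
  have h208 := job_sound hz (by decide) hK hA ok207 (by decide) h207 sz207
  have h209 := job_sound hz (by decide) hK hA ok208 (by decide) h208 sz208
  have h210 := job_sound hz (by decide) hK hA ok209 (by decide) h209 sz209
  have h211 := job_sound hz (by decide) hK hA ok210 (by decide) h210 sz210
  have h212 := job_sound hz (by decide) hK hA ok211 (by decide) h211 sz211
  have h213 := job_sound hz (by decide) hK hA ok212 (by decide) h212 sz212
  have h214 := job_sound hz (by decide) hK hA ok213 (by decide) h213 sz213
  have h215 := job_sound hz (by decide) hK hA ok214 (by decide) h214 sz214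
  have h216 := job_sound hz (by decide) hK hA ok215 (by decide) h215 sz215
  have h217 := job_sound hz (by decide) hK hA ok216 (by decide) h216 sz216
  have h218 := job_sound hz (by decide) hK hA ok217 (by decide) h217 sz217
  have h219 := job_sound hz (by decide) hK hA ok218 (by decide) h218 sz218
  have h220 := job_sound hz (by decide) hK hA ok219 (by decide) h219 sz219
  have h221 := job_sound hz (by decide) hK hA ok220 (by decide) h220 sz220
  exact not_mt hL (h221 196842 (by decide))

end Pool.Agent.Work.MP_92a29d_cert.g4322P_J0
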