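import Pool.Agent.Work.MP_92a29d_cert.g4322P_J0.D0
import Pool.Agent.Work.MP_92a29d_cert.g4322P_J0.D1
import Pool.Agent.Work.MP_92a29d_cert.g4322P_J0.D2
import Pool.Agent.Work.MP_92a29d_cert.g4322P_J0.D3
import Pool.Agent.Work.MP_92a29d_cert.g4322P_J0.D4
import Pool.Agent.Work.MP_92a29d_cert.g4322P_J0.D5
import Pool.Agent.Work.MP_92a29d_cert.g4322P_J0.D6
import Pool.Agent.Work.MP_92a29d_cert.g4322P_J0.D7

/-! Table of the clauses (generated). -/

set_option autoImplicit false
set_option maxRecDepth 100000

namespace Pool.Agent.Work.MP_92a29d_cert.g4322P_J0

open Pool.Agent.Work.MP_92a29d_co_h93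

/-- the tree of the pages -/
noncomputable def T : Tr := (.node (.node (.node d0 d4) (.node d2 d6)) (.node (.node d1 d5) (.node d3 d7)))

/-- `2 ^ 2202` -/
noncomputable def K0 : Nat := nat_lit 0x40000000000000000000000000000000000000000000000000000000000000000000000000000000000000000000000000000000000000000000000000000000000000000000000000000000000000000000000000000000000000000000000000000000000000000000000000000000000000000000000000000000000000000000000000000000000000000000000000000000000000000000000000000000000000000000000000000000000000000000000000000000000000000000000000000000000000000000000000000000000000000000000000000000000000000000000000000000000000000000000000000000000000000000000000000000000000000000000000000000000000000000000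

/-- all literals -/
noncomputable def A0 : Nat := nat_lit 0x3ffffffffffffffffffffffffffffffffffffffffffffffffffffffffffffffffffffffffffffffffffffffffffffffffffffffffffffffffffffffffffffffffffffffffffffffffffffffffffffffffffffffffffffffffffffffffffffffffffffffffffffffffffffffffffffffffffffffffffffffffffffffffffffffffffffffffffffffffffffffffffffffffffffffffffffffffffffffffffffffffffffffffffffffffffffffffffffffffffffffffffffffffffffffffffffffffffffffffffffffffffffffffffffffffffffffffffffffffffffffffffffffffffffffffffffffffffffffffffffffffffffffffffffffffffffffffffffffffffffffffffffffffffffffffffffffff000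

/-- the clauses -/
noncomputable def L (i : Nat) : Nat :=
  Lm (nat_lit 2203) (nat_lit 2207) (nat_lit 2213) (nat_lit 2221) (nat_lit 45) (nat_lit 35184372088831) T i

end Pool.Agent.Work.MP_92a29d_cert.g4322P_J0
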